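import Pool.Agent.N838.BT.Stm

/-!
# Bootstrap percolation on Galton-Watson trees: one beta integral
-/

open MeasureTheory N838.BT

namespace Pool.Agent.N186.BT

theorem F_sub (k : ℕ) : ∀ (r : ℕ) (y : ℝ),
    F (r + 1) k y - F r k y = (k.choose r : ℝ) * y ^ r * (1 - y) ^ (k - r) := by
  induction k with
  | zero =>
    intro r y
    cases r with
    | zero => simp [F]
    | succ r => simp [F]
  | succ k ih =>
    intro r y
    cases r with
    | zero =>
      have h := ih 0 y
      simp only [F] at h ⊢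
      simp only [Nat.choose_zero_right, Nat.sub_zero, pow_zero, mul_one, Nat.cast_one, one_mul,
        sub_zero, zero_add, mul_zero, add_zero] at h ⊢
      rw [h, pow_succ]
      ring
    | succ r =>
      have h1 := ih (r + 1) y
      have h2 := ih r y
      have h3 : F (r + 1 + 1) (k + 1) y - F (r + 1) (k + 1) y =
          (1 - y) * (F (r + 1 + 1) k y - F (r + 1) k y) + y * (F (r + 1) k y - F r k y) := by
        simp only [F]
        ring
      rw [h3, h1, h2, Nat.choose_succ_succ', Nat.add_sub_add_right]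
      rcases Nat.lt_or_ge k (r + 1) with hk | hk
      · rw [Nat.choose_eq_zero_of_lt hk]
        push_cast
        ring
      · obtain ⟨d, rfl⟩ : ∃ d, k = r + 1 + d := ⟨k - (r + 1), by omega⟩
        rw [show r + 1 + d - (r + 1) = d by omega, show r + 1 + d - r = d + 1 by omega]
        push_cast
        ring

theorem one_sub_F (s k : ℕ) (y : ℝ) :
    F (s + 2) k y = 1 - y ^ 2 * ∑ j ∈ Finset.range k,
      (j.choose (s + 1) : ℝ) * (y ^ s * (1 - y) ^ (j - (s + 1))) := by
  induction k with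
  | zero => simp [F]
  | succ k ih =>
    have h1 : F (s + 2) (k + 1) y = F (s + 2) k y - y * (F (s + 1 + 1) k y - F (s + 1) k y) := by
      simp only [F]
      ring
    rw [h1, F_sub, ih, Finset.sum_range_succ]
    ring

/-- the beta integral -/
noncomputable def J (s c : ℕ) : ℝ := ∫ y in (0 : ℝ)..1, y ^ s * (1 - y) ^ c

theorem J_rec (s c : ℕ) : ((s : ℝ) + 1) * J s (c + 1) = ((c : ℝ) + 1) * J (s + 1) c := by
  have h : ∫ y in (0 : ℝ)..1, (((s : ℝ) + 1) * (y ^ s * (1 - y) ^ (c + 1)) -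
      ((c : ℝ) + 1) * (y ^ (s + 1) * (1 - y) ^ c)) = 0 := by
    have h1 := intervalIntegral.integral_eq_sub_of_hasDerivAt (a := (0 : ℝ)) (b := 1)
      (f := fun y : ℝ => y ^ (s + 1) * (1 - y) ^ (c + 1))
      (f' := fun y : ℝ => ((s : ℝ) + 1) * (y ^ s * (1 - y) ^ (c + 1)) -
      ((c : ℝ) + 1) * (y ^ (s + 1) * (1 - y) ^ c)) (fun y _ => by
        have h2 := (hasDerivAt_pow (s + 1) y).mul (((hasDerivAt_id y).const_sub 1).pow (c + 1))
        refine h2.congr_deriv ?_
        simp only [id_eq, Nat.add_sub_cancel, Nat.cast_add, Nat.cast_one, Pi.pow_apply]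
        ring) (Continuous.intervalIntegrable (by fun_prop) _ _)
    rw [h1]
    simp
  rw [intervalIntegral.integral_sub (Continuous.intervalIntegrable (by fun_prop) _ _)
    (Continuous.intervalIntegrable (by fun_prop) _ _), intervalIntegral.integral_const_mul,
    intervalIntegral.integral_const_mul, sub_eq_zero] at h
  exact h

theorem J_zero (c : ℕ) : ((c : ℝ) + 1) * J 0 c = 1 := by
  unfold J
  simp only [pow_zero, one_mul]
  have h : ∫ y in (0 : ℝ)..1, (1 - y) ^ c = 1 / ((c : ℝ) + 1) := by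
    rw [intervalIntegral.integral_comp_sub_left (fun x : ℝ => x ^ c) 1]
    simp
  rw [h]
  field_simp

theorem J_eq (s : ℕ) : ∀ c : ℕ,
    ((s : ℝ) + 1) * (((s + 1 + c).choose (s + 1) : ℕ) : ℝ) * J s c = 1 := by
  induction s with
  | zero =>
    intro c
    have := J_zero c
    rw [show 0 + 1 + c = c + 1 by ring, Nat.zero_add, Nat.choose_one_right]
    push_cast
    linarith
  | succ s ih =>
    intro c
    have h1 := ih (c + 1)
    have h2 := J_rec s c
    have h3 := Nat.choose_succ_right_eq (s + 1 + 1 + c) (s + 1)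
    rw [show s + 1 + 1 + c - (s + 1) = c + 1 by omega] at h3
    have h4 : (((s + 1 + 1 + c).choose (s + 1 + 1) : ℕ) : ℝ) * ((s : ℝ) + 1 + 1) =
        (((s + 1 + 1 + c).choose (s + 1) : ℕ) : ℝ) * ((c : ℝ) + 1) := by exact_mod_cast h3
    rw [show s + 1 + (c + 1) = s + 1 + 1 + c by ring] at h1
    have hc : ((c : ℝ) + 1) ≠ 0 := by positivity
    have h5 : J (s + 1) c = ((s : ℝ) + 1) * J s (c + 1) / ((c : ℝ) + 1) := by
      rw [h2]; field_simp
    push_cast at h4 ⊢
    rw [h5]
    calc ((s : ℝ) + 1 + 1) * ↑((s + 1 + 1 + c).choose (s + 1 + 1)) *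
          (((s : ℝ) + 1) * J s (c + 1) / ((c : ℝ) + 1))
        = (↑((s + 1 + 1 + c).choose (s + 1 + 1)) * ((s : ℝ) + 1 + 1)) *
          (((s : ℝ) + 1) * J s (c + 1) / ((c : ℝ) + 1)) := by ring
      _ = (↑((s + 1 + 1 + c).choose (s + 1)) * ((c : ℝ) + 1)) *
          (((s : ℝ) + 1) * J s (c + 1) / ((c : ℝ) + 1)) := by rw [h4]
      _ = ((s : ℝ) + 1) * ↑((s + 1 + 1 + c).choose (s + 1)) * J s (c + 1) := by
          field_simp
      _ = 1 := h1

theorem sum_J (s d : ℕ) : ∑ j ∈ Finset.range (s + 1 + d), (j.choose (s + 1) : ℝ) *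
    J s (j - (s + 1)) = d / ((s : ℝ) + 1) := by
  induction d with
  | zero =>
    rw [Finset.sum_eq_zero]
    · simp
    · intro j hj
      rw [Finset.mem_range] at hj
      rw [Nat.choose_eq_zero_of_lt (by omega)]
      simp
  | succ d ih =>
    rw [← add_assoc, Finset.sum_range_succ, ih, Nat.add_sub_cancel_left]
    have h := J_eq s d
    have hs : ((s : ℝ) + 1) ≠ 0 := by positivity
    push_cast
    rw [add_div]
    congr 1
    rw [eq_div_iff hs]
    linarith

theorem t_INT : INT := by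
  intro s k m hm hk
  obtain ⟨d, rfl⟩ : ∃ d, k = s + 1 + d := ⟨k - (s + 1), by omega⟩
  have hm0 : 0 < m := by linarith
  have hm1 : 1 / m ≤ 1 := by rw [div_le_one hm0]; exact hm
  have hpos : 0 < 1 / m := by positivity
  set Q : ℝ → ℝ := fun y => ∑ j ∈ Finset.range (s + 1 + d),
      (j.choose (s + 1) : ℝ) * (y ^ s * (1 - y) ^ (j - (s + 1))) with hQ
  have hQc : Continuous Q := by fun_prop
  have hint : ∀ a b : ℝ, IntervalIntegrable Q volume a b := fun a b => hQc.intervalIntegrable _ _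
  have h1 : ∫ y in (1 / m)..1, F (s + 2) (s + 1 + d) y / y ^ 2 =
      ∫ y in (1 / m)..1, ((y ^ 2)⁻¹ - Q y) := by
    refine intervalIntegral.integral_congr fun y hy => ?_
    rw [Set.uIcc_of_le hm1] at hy
    have hy0 : y ≠ 0 := (lt_of_lt_of_le hpos hy.1).ne'
    change F (s + 2) (s + 1 + d) y / y ^ 2 = (y ^ 2)⁻¹ - Q y
    rw [one_sub_F]
    change (1 - y ^ 2 * Q y) / y ^ 2 = _
    field_simp
  have h2 : ∀ y ∈ Set.uIcc (1 / m) 1, HasDerivAt (fun y : ℝ => -(y⁻¹)) ((y ^ 2)⁻¹) y := by
    intro y hy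
    rw [Set.uIcc_of_le hm1] at hy
    have hy0 : y ≠ 0 := (lt_of_lt_of_le hpos hy.1).ne'
    have h := (hasDerivAt_inv hy0).fun_neg
    rwa [neg_neg] at h
  have hci : IntervalIntegrable (fun y : ℝ => (y ^ 2)⁻¹) volume (1 / m) 1 := by
    refine ContinuousOn.intervalIntegrable fun y hy => ?_
    rw [Set.uIcc_of_le hm1] at hy
    have hy0 : y ≠ 0 := (lt_of_lt_of_le hpos hy.1).ne'
    exact ContinuousAt.continuousWithinAt (by fun_prop (disch := positivity))
  have h3 := intervalIntegral.integral_eq_sub_of_hasDerivAt h2 hci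
  rw [h1, intervalIntegral.integral_sub hci (hint _ _), h3]
  have h4 : ∫ y in (1 / m)..1, Q y ≤ ∫ y in (0 : ℝ)..1, Q y := by
    have h5 := intervalIntegral.integral_add_adjacent_intervals (hint 0 (1 / m)) (hint (1 / m) 1)
    have h6 : 0 ≤ ∫ y in (0 : ℝ)..(1 / m), Q y := by
      refine intervalIntegral.integral_nonneg hpos.le fun y hy => ?_
      refine Finset.sum_nonneg fun j _ => ?_
      have := hy.1
      have h7 : 0 ≤ 1 - y := by have := hy.2; linarith
      positivity
    linarith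
  have h5 : ∫ y in (0 : ℝ)..1, Q y = d / ((s : ℝ) + 1) := by
    rw [← sum_J, hQ, intervalIntegral.integral_finsetSum]
    · refine Finset.sum_congr rfl fun j _ => ?_
      rw [intervalIntegral.integral_const_mul]
      rfl
    · intro j _
      exact Continuous.intervalIntegrable (by fun_prop) _ _
  have hs : ((s : ℝ) + 1) ≠ 0 := by positivity
  have h6 : ((s + 1 + d : ℕ) : ℝ) / (s + 1 : ℝ) = 1 + d / ((s : ℝ) + 1) := by
    push_cast
    field_simp
  rw [h6]
  have h7 : -((1 : ℝ)⁻¹) - -((1 / m)⁻¹) = m - 1 := by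
    rw [one_div, inv_inv, inv_one]; ring
  rw [h7]
  linarith

end Pool.Agent.N186.BT
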